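import Pool.Agent.U174.AO.Stm

/-!
# Project AO, package HOM1: countable elementary substructures whose ring is homogeneous
-/

set_option autoImplicit false

namespace Pool.Agent.U255.AO

open Pool.Agent.U174.AO

/-! ### closing off -/

theorem close {N : Type} (𝓕 : Set (Σ n : ℕ, (Fin n → N) → N)) (h𝓕 : 𝓕.Countable) (S : Set N)
    (hS : S.Countable) : ∃ M : Set N, M.Countable ∧ S ⊆ M ∧
      ∀ f ∈ 𝓕, ∀ a : Fin f.1 → N, (∀ j, a j ∈ M) → f.2 a ∈ M := by
  let C : ℕ → Set N := fun k => Nat.rec S (fun _ E => E ∪ ⋃ f ∈ 𝓕, f.2 '' {a | ∀ j, a j ∈ E}) k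
  have hCs : ∀ k, C (k + 1) = C k ∪ ⋃ f ∈ 𝓕, f.2 '' {a | ∀ j, a j ∈ C k} := fun k => rfl
  have hmono : Monotone C := monotone_nat_of_le_succ fun k => by
    rw [hCs]
    exact Set.subset_union_left
  have hcnt : ∀ k, (C k).Countable := by
    intro k
    induction k with
    | zero => exact hS
    | succ k ih =>
      rw [hCs]
      exact ih.union (h𝓕.biUnion fun f _ => (Set.countable_pi fun _ => ih).image _)
  refine ⟨⋃ k, C k, Set.countable_iUnion hcnt, Set.subset_iUnion C 0, ?_⟩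
  intro f hf a ha
  have h1 : ∀ j, ∃ k, a j ∈ C k := fun j => Set.mem_iUnion.1 (ha j)
  choose k hk using h1
  obtain ⟨K, hK⟩ : ∃ K, ∀ j, k j ≤ K :=
    ⟨Finset.univ.sup k, fun j => Finset.le_sup (Finset.mem_univ j)⟩
  refine Set.mem_iUnion.2 ⟨K + 1, ?_⟩
  rw [hCs]
  exact Or.inr (Set.mem_iUnion₂.2 ⟨f, hf, a, fun j => hmono (hK j) (hk j), rfl⟩)

/-! ### definable relations -/

section
variable {N : Type} [Field N]

/-- `R` is definable in the ring `N` with parameters in `F0` -/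
def D (F0 : Subfield N) (k : ℕ) (R : (Fin k → N) → Prop) : Prop :=
  ∃ (n : ℕ) (φ : Fm Empty (k + n)) (b : Fin n → N), (∀ i, b i ∈ F0) ∧
    ∀ e : Fin k → N, R e ↔ φ.Holds (noQ N) (Fin.append e b)

omit [Field N] in
theorem app1 {k n n' : ℕ} (e : Fin k → N) (b : Fin n → N) (b' : Fin n' → N) :
    (fun i => Fin.append e (Fin.append b b')
      (Fin.append (fun i => Fin.castAdd (n + n') i) (fun j => Fin.natAdd k (Fin.castAdd n' j)) i)) =
      Fin.append e b := by
  funext i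
  refine Fin.addCases (fun j => ?_) (fun j => ?_) i
  · simp only [Fin.append_left]
  · simp only [Fin.append_left, Fin.append_right]

omit [Field N] in
theorem app2 {k n n' : ℕ} (e : Fin k → N) (b : Fin n → N) (b' : Fin n' → N) :
    (fun i => Fin.append e (Fin.append b b')
      (Fin.append (fun i => Fin.castAdd (n + n') i) (fun j => Fin.natAdd k (Fin.natAdd n j)) i)) =
      Fin.append e b' := by
  funext i
  refine Fin.addCases (fun j => ?_) (fun j => ?_) i
  · simp only [Fin.append_left]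
  · simp only [Fin.append_right]

/-- the renaming which moves the variable `k` to the front -/
def fr (k n : ℕ) : Fin ((k + 1) + n) → Fin ((k + n) + 1) :=
  Fin.append (Fin.snoc (α := fun _ => Fin ((k + n) + 1)) (fun i : Fin k => (Fin.castAdd n i).succ) 0)
    (fun j => (Fin.natAdd k j).succ)

omit [Field N] in
theorem app3 {k n : ℕ} (e : Fin k → N) (y : N) (b : Fin n → N) :
    (fun i => (Fin.cons y (Fin.append e b) : Fin ((k + n) + 1) → N) (fr k n i)) =
      Fin.append (Fin.snoc (α := fun _ => N) e y) b := by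
  funext i
  unfold fr
  refine Fin.addCases (fun j => ?_) (fun j => ?_) i
  · rw [Fin.append_left, Fin.append_left]
    refine Fin.lastCases ?_ (fun j => ?_) j
    · rw [Fin.snoc_last, Fin.snoc_last, Fin.cons_zero]
    · rw [Fin.snoc_castSucc, Fin.snoc_castSucc, Fin.cons_succ, Fin.append_left]
  · rw [Fin.append_right, Fin.append_right, Fin.cons_succ, Fin.append_right]

theorem D.and (hB : S_BAS) {F0 : Subfield N} {k : ℕ} {R R' : (Fin k → N) → Prop} (h : D F0 k R)
    (h' : D F0 k R') : D F0 k fun e => R e ∧ R' e := by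
  obtain ⟨n, φ, b, hb, hφ⟩ := h
  obtain ⟨n', φ', b', hb', hφ'⟩ := h'
  refine ⟨n + n', .and
    (φ.ren (Fin.append (fun i => Fin.castAdd (n + n') i) fun j => Fin.natAdd k (Fin.castAdd n' j)))
    (φ'.ren (Fin.append (fun i => Fin.castAdd (n + n') i) fun j => Fin.natAdd k (Fin.natAdd n j))),
    Fin.append b b', ?_, ?_⟩
  · intro i
    refine Fin.addCases (fun j => ?_) (fun j => ?_) i
    · rw [Fin.append_left]
      exact hb j
    · rw [Fin.append_right]
      exact hb' j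
  · intro e
    rw [Fm.Holds, hB.1, hB.1, app1, app2]
    exact and_congr (hφ e) (hφ' e)

theorem D.true (F0 : Subfield N) (k : ℕ) : D F0 k fun _ => True :=
  ⟨0, .zero 0, Fin.elim0, fun i => i.elim0, fun e => by rw [Fm.Holds]; simp⟩

theorem D.ex (hB : S_BAS) {F0 : Subfield N} {k : ℕ} {R : (Fin (k + 1) → N) → Prop}
    (h : D F0 (k + 1) R) : D F0 k fun e => ∃ y : N, R (Fin.snoc (α := fun _ => N) e y) := by
  obtain ⟨n, φ, b, hb, hφ⟩ := h
  refine ⟨n, .ex (φ.ren (fr k n)), b, hb, fun e => ?_⟩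
  rw [Fm.Holds]
  refine exists_congr fun y => ?_
  rw [hB.1, hφ, app3]

theorem D.same {F0 : Subfield N} {k : ℕ} {R : (Fin k → N) → Prop} (h : D F0 k R) {c d : Fin k → N}
    (hcd : SameT F0 c d) : R c ↔ R d := by
  obtain ⟨n, φ, b, hb, hφ⟩ := h
  rw [hφ, hφ]
  exact hcd n φ b hb

/-- homogeneity of a saturated field -/
theorem hom (hB : S_BAS) {ι : Type} (Q : ι → Set N) (hQ : Sat Q) (F0 : Subfield N)
    (hF : Countable F0) (k : ℕ) (c d : Fin k → N) (hcd : SameT F0 c d) (c' : N) :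
    ∃ d' : N, SameT F0 (Fin.snoc (α := fun _ => N) c c') (Fin.snoc (α := fun _ => N) d d') := by
  have hE : ∀ n, Countable (Fm Empty n) := hB.2.2 Empty inferInstance
  let J : Type := Σ n : ℕ, Fm Empty ((k + 1) + n) × (Fin n → F0)
  have hJ : Countable J := inferInstance
  have hJ0 : Nonempty J := ⟨⟨0, .zero 0, Fin.elim0⟩⟩
  obtain ⟨e, he⟩ := exists_surjective_nat J
  have h1 : ∀ j : J, ∃ ψ : Fm Empty ((k + 1) + j.1),
      ψ.Holds (noQ N) (Fin.append (Fin.snoc (α := fun _ => N) c c') (fun i => (j.2.2 i : N))) ∧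
      ∀ v, ψ.Holds (noQ N) v →
        (j.2.1.Holds (noQ N) (Fin.append (Fin.snoc (α := fun _ => N) c c') (fun i => (j.2.2 i : N))) ↔
          j.2.1.Holds (noQ N) v) := by
    intro j
    by_cases hj : j.2.1.Holds (noQ N)
      (Fin.append (Fin.snoc (α := fun _ => N) c c') (fun i => (j.2.2 i : N)))
    · exact ⟨j.2.1, hj, fun v hv => ⟨fun _ => hv, fun _ => hj⟩⟩
    · refine ⟨.not j.2.1, ?_, fun v hv => ?_⟩
      · rw [Fm.Holds]
        exact hj
      · rw [Fm.Holds] at hv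
        exact ⟨fun h => absurd h hj, fun h => absurd h hv⟩
  choose ψ hψ1 hψ2 using h1
  have hD : ∀ m : ℕ, D F0 (k + 1) fun v => ∀ i < m,
      (ψ (e i)).Holds (noQ N) (Fin.append v (fun l => ((e i).2.2 l : N))) := by
    intro m
    induction m with
    | zero =>
      refine (congrArg (D F0 (k + 1)) ?_).mpr (D.true F0 (k + 1))
      funext v
      simp
    | succ m ih =>
      have h2 : D F0 (k + 1) fun v =>
          (ψ (e m)).Holds (noQ N) (Fin.append v (fun l => ((e m).2.2 l : N))) :=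
        ⟨(e m).1, ψ (e m), fun l => ((e m).2.2 l : N), fun l => ((e m).2.2 l).2, fun v => Iff.rfl⟩
      refine (congrArg (D F0 (k + 1)) ?_).mpr (D.and hB ih h2)
      funext v
      refine propext ⟨fun h => ⟨fun i hi => h i (by omega), h m (by omega)⟩, fun h i hi => ?_⟩
      rcases Nat.lt_succ_iff_lt_or_eq.1 hi with h' | h'
      · exact h.1 i h'
      · subst h'
        exact h.2
  have hfin : ∀ m : ℕ, ∃ y : N, ∀ i < m, (ψ (e i)).Holds (noQ N)
      (Fin.append (Fin.snoc (α := fun _ => N) d y) (fun l => ((e i).2.2 l : N))) := by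
    intro m
    exact ((D.ex hB (hD m)).same hcd).1 ⟨c', fun i _ => hψ1 (e i)⟩
  have hiff : ∀ (j : J) (y : N), ((Fm.lift ((ψ j).ren (fr k j.1)) : Fm ι ((k + j.1) + 1))).Holds Q
      (Fin.cons y (Fin.append d (fun l => (j.2.2 l : N)))) ↔ (ψ j).Holds (noQ N)
      (Fin.append (Fin.snoc (α := fun _ => N) d y) (fun l => (j.2.2 l : N))) := by
    intro j y
    rw [hB.2.1, hB.1, app3]
  obtain ⟨y, hy⟩ := hQ (fun i => ⟨k + (e i).1, Fm.lift ((ψ (e i)).ren (fr k (e i).1))⟩)
    (fun i => Fin.append d (fun l => ((e i).2.2 l : N))) (fun m => by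
      obtain ⟨y, hy⟩ := hfin m
      exact ⟨y, fun i hi => (hiff (e i) y).2 (hy i hi)⟩)
  refine ⟨y, fun n φ b hb => ?_⟩
  obtain ⟨i, hi⟩ := he ⟨n, φ, fun l => ⟨b l, hb l⟩⟩
  have h3 := hψ2 (e i) _ ((hiff (e i) y).1 (hy i))
  rw [hi] at h3
  exact h3

end

theorem aev {N : Type} [Field N] (M : Subfield N) {n : ℕ} (b : Fin n → M) (p : MvPolynomial (Fin n) ℤ) :
    ((MvPolynomial.aeval b p : M) : N) = MvPolynomial.aeval (fun i => (b i : N)) p := by
  have h : M.subtype (MvPolynomial.aeval b p) = MvPolynomial.aeval (fun i => (b i : N)) p := by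
    rw [MvPolynomial.aeval_def, MvPolynomial.aeval_def, MvPolynomial.eval₂_comp_left M.subtype]
    congr 1
  exact h

theorem elem_of {N ι : Type} [Field N] (Q : ι → Set N) (M : Subfield N)
    (h : ∀ (n : ℕ) (φ : Fm ι (n + 1)) (b : Fin n → N), (∀ i, b i ∈ M) →
      (∃ y : N, φ.Holds Q (Fin.cons y b)) → ∃ y ∈ M, φ.Holds Q (Fin.cons y b)) : Elem Q M := by
  intro n φ
  induction φ with
  | zero p =>
    intro b
    rw [Fm.Holds, Fm.Holds, ← aev M b p]
    exact Subtype.ext_iff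
  | pred i p =>
    intro b
    rw [Fm.Holds, Fm.Holds, ← aev M b p]
    exact Iff.rfl
  | not φ ih =>
    intro b
    rw [Fm.Holds, Fm.Holds, ih b]
  | and φ ψ ih1 ih2 =>
    intro b
    rw [Fm.Holds, Fm.Holds, ih1 b, ih2 b]
  | @ex n φ ih =>
    intro b
    rw [Fm.Holds, Fm.Holds]
    have e : ∀ y : M, (fun i => (((Fin.cons y b : Fin (n + 1) → M) i : M) : N)) =
        Fin.cons (α := fun _ => N) (y : N) (fun i => (b i : N)) := by
      intro y
      funext i
      refine Fin.cases ?_ (fun j => ?_) i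
      · rfl
      · rfl
    constructor
    · rintro ⟨y, hy⟩
      refine ⟨(y : N), ?_⟩
      rw [← e y]
      exact (ih _).1 hy
    · intro hy
      obtain ⟨y, hyM, hy⟩ := h n φ (fun i => (b i : N)) (fun i => (b i).2) hy
      refine ⟨⟨y, hyM⟩, (ih _).2 ?_⟩
      rw [e ⟨y, hyM⟩]
      exact hy

theorem t_HOM1 : S_BAS → S_HOM1 := by
  intro hB ι N _ Q hι hQ F0 hF x y
  have hFm : ∀ n, Countable (Fm ι n) := hB.2.2 ι hι
  -- witnesses
  have hw : ∀ (f : Σ n : ℕ, Fm ι (n + 1)) (b : Fin f.1 → N), ∃ z : N,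
      (∃ y : N, f.2.Holds Q (Fin.cons y b)) → f.2.Holds Q (Fin.cons z b) := by
    intro f b
    by_cases h : ∃ y : N, f.2.Holds Q (Fin.cons y b)
    · exact ⟨h.choose, fun _ => h.choose_spec⟩
    · exact ⟨0, fun h' => absurd h' h⟩
  choose w hw using hw
  have hh : ∀ (k : ℕ) (a : Fin ((k + k) + 1) → N), ∃ z : N,
      SameT F0 (fun i : Fin k => a (Fin.castSucc (Fin.castAdd k i)))
        (fun i : Fin k => a (Fin.castSucc (Fin.natAdd k i))) →
      SameT F0 (Fin.snoc (α := fun _ => N) (fun i : Fin k => a (Fin.castSucc (Fin.castAdd k i)))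
          (a (Fin.last (k + k))))
        (Fin.snoc (α := fun _ => N) (fun i : Fin k => a (Fin.castSucc (Fin.natAdd k i))) z) := by
    intro k a
    by_cases h : SameT F0 (fun i : Fin k => a (Fin.castSucc (Fin.castAdd k i)))
        (fun i : Fin k => a (Fin.castSucc (Fin.natAdd k i)))
    · obtain ⟨z, hz⟩ := hom hB Q hQ F0 hF k _ _ h (a (Fin.last (k + k)))
      exact ⟨z, fun _ => hz⟩
    · exact ⟨0, fun h' => absurd h' h⟩
  choose u hu using hh
  -- the functions
  obtain ⟨𝓕, h𝓕⟩ : ∃ 𝓕 : Set (Σ n : ℕ, (Fin n → N) → N), 𝓕 =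
      (Set.range fun f : Σ n : ℕ, Fm ι (n + 1) => (⟨f.1, w f⟩ : Σ n : ℕ, (Fin n → N) → N)) ∪
      (Set.range fun k : ℕ => (⟨(k + k) + 1, u k⟩ : Σ n : ℕ, (Fin n → N) → N)) ∪
      {⟨2, fun a => a 0 + a 1⟩, ⟨2, fun a => a 0 * a 1⟩, ⟨1, fun a => -a 0⟩, ⟨1, fun a => (a 0)⁻¹⟩,
        ⟨0, fun _ => 0⟩, ⟨0, fun _ => 1⟩} := ⟨_, rfl⟩
  have h𝓕c : 𝓕.Countable := by
    rw [h𝓕]
    refine ((Set.countable_range _).union (Set.countable_range _)).union ?_
    exact Set.Finite.countable (by simp)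
  obtain ⟨S, hS, hFS, hcl⟩ := close 𝓕 h𝓕c ((F0 : Set N) ∪ {x, y})
    ((Set.countable_coe_iff.1 hF).union (Set.Finite.countable (by simp)))
  have c1 : ∀ a ∈ S, ∀ b ∈ S, a + b ∈ S := by
    intro a ha b hb
    exact hcl ⟨2, fun a => a 0 + a 1⟩ (by rw [h𝓕]; right; simp) ![a, b]
      (fun j => by fin_cases j <;> assumption)
  have c2 : ∀ a ∈ S, ∀ b ∈ S, a * b ∈ S := by
    intro a ha b hb
    exact hcl ⟨2, fun a => a 0 * a 1⟩ (by rw [h𝓕]; right; simp) ![a, b]
      (fun j => by fin_cases j <;> assumption)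
  have c3 : ∀ a ∈ S, -a ∈ S := by
    intro a ha
    exact hcl ⟨1, fun a => -a 0⟩ (by rw [h𝓕]; right; simp) ![a]
      (fun j => by fin_cases j; assumption)
  have c4 : ∀ a ∈ S, a⁻¹ ∈ S := by
    intro a ha
    exact hcl ⟨1, fun a => (a 0)⁻¹⟩ (by rw [h𝓕]; right; simp) ![a]
      (fun j => by fin_cases j; assumption)
  have c5 : (0 : N) ∈ S := hcl ⟨0, fun _ => 0⟩ (by rw [h𝓕]; right; simp) Fin.elim0 fun j => j.elim0
  have c6 : (1 : N) ∈ S := hcl ⟨0, fun _ => 1⟩ (by rw [h𝓕]; right; simp) Fin.elim0 fun j => j.elim0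
  obtain ⟨M, hM⟩ : ∃ M : Subfield N, ∀ z, z ∈ M ↔ z ∈ S :=
    ⟨{ carrier := S
       mul_mem' := fun {a b} ha hb => c2 a ha b hb
       one_mem' := c6
       add_mem' := fun {a b} ha hb => c1 a ha b hb
       zero_mem' := c5
       neg_mem' := fun {a} ha => c3 a ha
       inv_mem' := fun a ha => c4 a ha }, fun z => Iff.rfl⟩
  have hMS : (M : Set N) = S := Set.ext hM
  refine ⟨M, ?_, fun z hz => (hM z).2 (hFS (Or.inl hz)), (hM x).2 (hFS (Or.inr (by simp))),
    (hM y).2 (hFS (Or.inr (by simp))), elem_of Q M ?_, ?_⟩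
  · have : (M : Set N).Countable := hMS ▸ hS
    exact Set.countable_coe_iff.2 this
  · intro n φ b hb hy
    refine ⟨w ⟨n, φ⟩ b, (hM _).2 ?_, hw ⟨n, φ⟩ b hy⟩
    exact hcl ⟨n, w ⟨n, φ⟩⟩ (by rw [h𝓕]; left; left; exact ⟨⟨n, φ⟩, rfl⟩) b fun j => (hM _).1 (hb j)
  · intro k c d hc hd hcd c' hc'
    obtain ⟨a, ha⟩ : ∃ a : Fin ((k + k) + 1) → N,
        a = Fin.snoc (α := fun _ => N) (Fin.append c d) c' := ⟨_, rfl⟩
    have e1 : (fun i : Fin k => a (Fin.castSucc (Fin.castAdd k i))) = c := by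
      funext i
      rw [ha, Fin.snoc_castSucc, Fin.append_left]
    have e2 : (fun i : Fin k => a (Fin.castSucc (Fin.natAdd k i))) = d := by
      funext i
      rw [ha, Fin.snoc_castSucc, Fin.append_right]
    have e3 : a (Fin.last (k + k)) = c' := by rw [ha, Fin.snoc_last]
    have h1 := hu k a
    rw [e1, e2, e3] at h1
    refine ⟨u k a, (hM _).2 ?_, h1 hcd⟩
    refine hcl ⟨(k + k) + 1, u k⟩ (by rw [h𝓕]; left; right; exact ⟨k, rfl⟩) a fun j => ?_
    rw [ha]
    refine Fin.lastCases ?_ (fun j => ?_) j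
    · rw [Fin.snoc_last]
      exact (hM _).1 hc'
    · rw [Fin.snoc_castSucc]
      refine Fin.addCases (fun j => ?_) (fun j => ?_) j
      · rw [Fin.append_left]
        exact (hM _).1 (hc j)
      · rw [Fin.append_right]
        exact (hM _).1 (hd j)

end Pool.Agent.U255.AO
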